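import Mathlib

/-!
# Hereditarily minimal groups: torsion-free groups with an open central copy of `ℤ_p` (helper54)
-/

set_option autoImplicit false
set_option linter.unusedSectionVars false
set_option linter.style.haveILetI false

namespace Pool.Agent.TH54

open Topology Filter

/-- the topology `τ` on the group `G` is minimal: every Hausdorff group topology on `G` which is
coarser than `τ` is equal to `τ` -/
def MinimalTopology (G : Type*) [Group G] (τ : TopologicalSpace G) : Prop :=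
  ∀ σ : TopologicalSpace G, τ ≤ σ → @IsTopologicalGroup G σ _ → @T2Space G σ → σ = τ

/-- every subgroup of `G`, with the subspace topology, is minimal -/
def HereditarilyMinimal (G : Type*) [Group G] [TopologicalSpace G] : Prop :=
  ∀ H : Subgroup G, MinimalTopology H instTopologicalSpaceSubtype

theorem dvd_pow_valuation {p : ℕ} [hp : Fact p.Prime] {f : ℤ_[p]} (hf : f ≠ 0) :
    f ∣ (p : ℤ_[p]) ^ f.valuation := by
  have h2 := PadicInt.unitCoeff_spec hf
  generalize PadicInt.unitCoeff hf = u at h2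
  generalize f.valuation = v at h2 ⊢
  rw [h2]
  exact (Units.mul_left_dvd).2 (dvd_refl _)

section core

variable {p : ℕ} [hp : Fact p.Prime] {M : Type*} [Group M] [tM : TopologicalSpace M]
  [IsTopologicalGroup M] (ι : Multiplicative ℤ_[p] →* M) (hι : IsOpenEmbedding ι)
  (H : Subgroup M) (σ : TopologicalSpace H)
  (hle : (instTopologicalSpaceSubtype : TopologicalSpace H) ≤ σ)
  (hg : @IsTopologicalGroup H σ _) (hT : @T2Space H σ)

/-- the trace on `ℤ_p` of the neighbourhoods of the identity in the coarser topology -/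
def trace (U : Set H) : Set ℤ_[p] := {z | ∃ x ∈ U, (x : M) = ι (Multiplicative.ofAdd z)}

/-- the cluster points of the traces -/
def clus : Set ℤ_[p] := {z | ∀ U ∈ @nhds H σ 1, z ∈ closure (trace ι H U)}

theorem trace_mono {U V : Set H} (h : U ⊆ V) : trace ι H U ⊆ trace ι H V :=
  fun _ ⟨x, hx, e⟩ => ⟨x, h hx, e⟩

theorem clus_closed : IsClosed (clus ι H σ) := by
  have : clus ι H σ = ⋂ U ∈ @nhds H σ 1, closure (trace ι H U) := by
    ext z
    simp [clus]
  rw [this]
  exact isClosed_biInter fun _ _ => isClosed_closure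

include hg in
theorem clus_sub {a b : ℤ_[p]} (ha : a ∈ clus ι H σ) (hb : b ∈ clus ι H σ) :
    a - b ∈ clus ι H σ := by
  intro U hU
  letI := σ
  haveI := hg
  obtain ⟨V, hV, hVU⟩ := exists_nhds_split_inv hU
  refine map_mem_closure₂ continuous_sub (ha V hV) (hb V hV) ?_
  rintro x ⟨v, hv, ev⟩ y ⟨w, hw, ew⟩
  refine ⟨v / w, hVU v hv w hw, ?_⟩
  rw [ofAdd_sub, map_div, ← ev, ← ew]
  rfl

include hg in
theorem clus_zsmul {a : ℤ_[p]} (ha : a ∈ clus ι H σ) (n : ℤ) : (n : ℤ_[p]) * a ∈ clus ι H σ := by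
  have h0 : (0 : ℤ_[p]) ∈ clus ι H σ := by
    have := clus_sub ι H σ hg ha ha
    rwa [sub_self] at this
  have hneg : ∀ b, b ∈ clus ι H σ → -b ∈ clus ι H σ := by
    intro b hb
    have := clus_sub ι H σ hg h0 hb
    rwa [zero_sub] at this
  have hnat : ∀ m : ℕ, (m : ℤ_[p]) * a ∈ clus ι H σ := by
    intro m
    induction m with
    | zero => simpa using h0
    | succ m ih =>
      have := clus_sub ι H σ hg ih (hneg a ha)
      rw [sub_neg_eq_add] at this
      rw [Nat.cast_succ, add_mul, one_mul]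
      exact this
  obtain ⟨m, rfl | rfl⟩ := n.eq_nat_or_neg
  · exact_mod_cast hnat m
  · have := hneg _ (hnat m)
    push_cast
    rwa [neg_mul]

include hg in
theorem clus_mul {a : ℤ_[p]} (ha : a ∈ clus ι H σ) (z : ℤ_[p]) : z * a ∈ clus ι H σ := by
  refine (PadicInt.denseRange_intCast (p := p)).induction_on z ?_ ?_
  · exact (clus_closed ι H σ).preimage (continuous_mul_const a)
  · intro n
    exact clus_zsmul ι H σ hg ha n

include hι hle hg hT in
/-- no nontrivial element of `H` lies over a cluster point -/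
theorem clus_disj {z : ℤ_[p]} (hz : z ∈ clus ι H σ) {k : H}
    (hk : (k : M) = ι (Multiplicative.ofAdd z)) : k = 1 := by
  by_contra hne
  have hU : {h : H | h ≠ k} ∈ @nhds H σ 1 := by
    letI := σ
    exact isOpen_ne.mem_nhds (Ne.symm hne)
  have hV' : ∃ V ∈ @nhds H σ 1, ∀ v ∈ V, ∀ w ∈ V, v / w ∈ {h : H | h ≠ k} := by
    letI := σ
    haveI := hg
    exact exists_nhds_split_inv hU
  obtain ⟨V, hV, hVU⟩ := hV'
  have hkV : {h : H | k⁻¹ * h ∈ V} ∈ @nhds H σ k := by
    letI := σ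
    haveI := hg
    have hc : Continuous fun h : H => k⁻¹ * h := continuous_const_mul _
    exact hc.continuousAt.preimage_mem_nhds (by simpa using hV)
  have hkV2 : {h : H | k⁻¹ * h ∈ V} ∈ @nhds H instTopologicalSpaceSubtype k :=
    _root_.nhds_mono hle hkV
  rw [mem_nhds_subtype] at hkV2
  obtain ⟨O, hO, hOV⟩ := hkV2
  rw [hk] at hO
  have hW : (fun z : ℤ_[p] => ι (Multiplicative.ofAdd z)) ⁻¹' O ∈ 𝓝 z := by
    have hc : Continuous fun z : ℤ_[p] => ι (Multiplicative.ofAdd z) :=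
      hι.continuous.comp continuous_ofAdd
    exact hc.continuousAt.preimage_mem_nhds hO
  obtain ⟨z', hz'1, v, hv, ev⟩ := mem_closure_iff_nhds.1 (hz V hV) _ hW
  have hvO : (v : M) ∈ O := by rw [ev]; exact hz'1
  have h1 : k⁻¹ * v ∈ V := hOV hvO
  refine hVU v hv _ h1 ?_
  rw [div_eq_mul_inv, mul_inv_rev, inv_inv, mul_inv_cancel_left]

include hι hle hg hT in
/-- the trace topology is the `p`-adic one -/
theorem trace_small (n : ℕ) : ∃ U ∈ @nhds H σ 1, ∀ z ∈ trace ι H U, (p : ℤ_[p]) ^ n ∣ z := by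
  by_contra hcon
  push Not at hcon
  -- a cluster point outside `p ^ n ℤ_p`
  set T : Set ℤ_[p] := {z | ¬ (p : ℤ_[p]) ^ n ∣ z} with hTdef
  have hTc : IsClosed T := by
    have : T = {z : ℤ_[p] | ‖z‖ < (p : ℝ) ^ (-(n : ℤ) + 1)}ᶜ := by
      ext z
      rw [hTdef, Set.mem_ofPred_eq, Set.mem_compl_iff, Set.mem_ofPred_eq]
      rw [← PadicInt.norm_le_pow_iff_norm_lt_pow_add_one, PadicInt.norm_le_pow_iff_mem_span_pow,
        Ideal.mem_span_singleton]
    rw [this]
    exact (isOpen_lt continuous_norm continuous_const).isClosed_compl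
  have hex : ∃ f ∈ T, f ∈ clus ι H σ := by
    by_contra hno
    push Not at hno
    have h1 : ∀ f ∈ T, ∃ U ∈ @nhds H σ 1, f ∉ closure (trace ι H U) := by
      intro f hf
      have := hno f hf
      unfold clus at this
      simp only [Set.mem_ofPred_eq, not_forall] at this
      obtain ⟨U, hU, h⟩ := this
      exact ⟨U, hU, h⟩
    choose! U hU hUf using h1
    have hcov : T ⊆ ⋃ f ∈ T, (closure (trace ι H (U f)))ᶜ := by
      intro f hf
      exact Set.mem_biUnion hf (hUf f hf)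
    obtain ⟨t, hcov'⟩ := hTc.isCompact.elim_nhds_subcover'
      (fun f hf => (closure (trace ι H (U f)))ᶜ)
      (fun f hf => (isClosed_closure.isOpen_compl).mem_nhds (hUf f hf))
    obtain ⟨z, ⟨x, hx, ex⟩, hz⟩ := hcon (⋂ f ∈ t, U f) (by
      letI := σ
      exact (Filter.biInter_finset_mem t).2 fun f _ => hU f f.2)
    have hzT : z ∈ T := hz
    obtain ⟨f, hf, hzf⟩ := Set.mem_iUnion₂.1 (hcov' hzT)
    refine hzf (subset_closure ⟨x, ?_, ex⟩)
    exact Set.mem_iInter₂.1 hx f hf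
  obtain ⟨f, hfT, hfc⟩ := hex
  have hf0 : f ≠ 0 := by
    rintro rfl
    exact hfT (dvd_zero _)
  -- a nontrivial element of `H` over `ℤ_p`
  obtain ⟨z, ⟨x, -, ex⟩, hz⟩ := hcon Set.univ (@Filter.univ_mem _ _)
  have hz0 : z ≠ 0 := by
    rintro rfl
    exact hz (dvd_zero _)
  -- `p ^ v * z` is a cluster point
  have hfv : f ∣ (p : ℤ_[p]) ^ f.valuation := dvd_pow_valuation hf0
  obtain ⟨w, hw⟩ := hfv
  have h3 : (p : ℤ_[p]) ^ f.valuation * z ∈ clus ι H σ := by
    have := clus_mul ι H σ hg hfc (w * z)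
    rw [hw]
    convert this using 1
    ring
  have h4 : ((x ^ (p ^ f.valuation) : H) : M) =
      ι (Multiplicative.ofAdd ((p : ℤ_[p]) ^ f.valuation * z)) := by
    have e : Multiplicative.ofAdd ((p : ℤ_[p]) ^ f.valuation * z) =
        (Multiplicative.ofAdd z) ^ (p ^ f.valuation) := by
      rw [← ofAdd_nsmul, nsmul_eq_mul]
      push_cast
      rfl
    rw [e, map_pow, ← ex]
    rfl
  have h5 := clus_disj ι hι H σ hle hg hT h3 h4
  rw [h5] at h4
  have h6 : ι 1 = ι (Multiplicative.ofAdd ((p : ℤ_[p]) ^ f.valuation * z)) := by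
    rw [← h4, map_one]
    rfl
  have h7 := hι.injective h6
  have h8 : (p : ℤ_[p]) ^ f.valuation * z = 0 := by
    have := congrArg Multiplicative.toAdd h7
    simpa using this.symm
  have hp0 : (p : ℤ_[p]) ≠ 0 := by exact_mod_cast hp.out.ne_zero
  exact (mul_ne_zero (pow_ne_zero _ hp0) hz0) h8

end core

/-- **Main lemma.** A torsion-free topological group with an open central subgroup isomorphic to
`ℤ_p`, such that the quotient has finite exponent, is hereditarily minimal. -/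
theorem hereditarilyMinimal_of {p : ℕ} [hp : Fact p.Prime] {M : Type*} [Group M]
    [TopologicalSpace M] [IsTopologicalGroup M]
    (ι : Multiplicative ℤ_[p] →* M) (hι : IsOpenEmbedding ι)
    (hc : ∀ z x, ι z * x = x * ι z)
    (htf : ∀ x : M, IsOfFinOrder x → x = 1) {n : ℕ} (hn : 0 < n)
    (hx : ∀ x : M, x ^ n ∈ ι.range) : HereditarilyMinimal M := by
  intro H σ hle hg hT
  -- write `p ^ k` as a multiple of `n` in `ℤ_p`
  have hn0 : (n : ℤ_[p]) ≠ 0 := by exact_mod_cast hn.ne'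
  have hnk : (n : ℤ_[p]) ∣ (p : ℤ_[p]) ^ (n : ℤ_[p]).valuation := dvd_pow_valuation hn0
  obtain ⟨U, hU, hUz⟩ := trace_small ι hι H σ hle hg hT (n : ℤ_[p]).valuation
  -- the centre is open in the coarse topology
  have hV : {x : H | ∃ z, (x : M) = ι z} ∈ @nhds H σ 1 := by
    have h1 : {x : H | x ^ n ∈ U} ∈ @nhds H σ 1 := by
      letI := σ
      haveI := hg
      have hcn : Continuous fun x : H => x ^ n := continuous_pow n
      exact hcn.continuousAt.preimage_mem_nhds (by simpa using hU)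
    refine @Filter.mem_of_superset _ _ _ _ h1 ?_
    intro x hxU
    obtain ⟨w, hw⟩ := hx (x : M)
    have h2 : (p : ℤ_[p]) ^ (n : ℤ_[p]).valuation ∣ Multiplicative.toAdd w :=
      hUz _ ⟨x ^ n, hxU, by rw [ofAdd_toAdd, hw]; rfl⟩
    obtain ⟨y, hy⟩ := hnk.trans h2
    refine ⟨Multiplicative.ofAdd y, ?_⟩
    have h3 : (ι (Multiplicative.ofAdd y)) ^ n = (x : M) ^ n := by
      rw [← map_pow, ← ofAdd_nsmul, nsmul_eq_mul, ← hy, ofAdd_toAdd, hw]
    have hcomm : Commute (x : M) (ι (Multiplicative.ofAdd y))⁻¹ :=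
      (show Commute (ι (Multiplicative.ofAdd y)) (x : M) from hc _ _).symm.inv_right
    have h4 : ((x : M) * (ι (Multiplicative.ofAdd y))⁻¹) ^ n = 1 := by
      rw [hcomm.mul_pow, inv_pow, h3, mul_inv_cancel]
    have h5 := htf _ (isOfFinOrder_iff_pow_eq_one.2 ⟨n, hn, h4⟩)
    exact mul_inv_eq_one.1 h5
  refine @IsTopologicalGroup.ext H _ σ instTopologicalSpaceSubtype hg inferInstance ?_
  refine le_antisymm ?_ (nhds_mono hle)
  intro W hW
  rw [mem_nhds_subtype] at hW
  obtain ⟨O, hO, hOW⟩ := hW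
  have hc0 : Continuous fun z : ℤ_[p] => ι (Multiplicative.ofAdd z) :=
    hι.continuous.comp continuous_ofAdd
  have hO' : (fun z : ℤ_[p] => ι (Multiplicative.ofAdd z)) ⁻¹' O ∈ 𝓝 (0 : ℤ_[p]) :=
    hc0.continuousAt.preimage_mem_nhds (by simpa using hO)
  obtain ⟨ε, hε, hball⟩ := Metric.mem_nhds_iff.1 hO'
  obtain ⟨j, hj⟩ := PadicInt.exists_pow_neg_lt p hε
  obtain ⟨U', hU', hUz'⟩ := trace_small ι hι H σ hle hg hT j
  have hUV : U' ∩ {x : H | ∃ z, (x : M) = ι z} ∈ @nhds H σ 1 := @Filter.inter_mem _ _ _ _ hU' hV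
  refine @Filter.mem_of_superset _ _ _ _ hUV ?_
  rintro x ⟨hxU, z, hz⟩
  apply hOW
  show (x : M) ∈ O
  have h1 : (p : ℤ_[p]) ^ j ∣ Multiplicative.toAdd z :=
    hUz' _ ⟨x, hxU, by rw [ofAdd_toAdd, hz]⟩
  have h2 : ‖Multiplicative.toAdd z‖ ≤ (p : ℝ) ^ (-(j : ℤ)) := by
    rw [PadicInt.norm_le_pow_iff_mem_span_pow, Ideal.mem_span_singleton]
    exact h1
  have h3 : Multiplicative.toAdd z ∈ Metric.ball (0 : ℤ_[p]) ε := by
    rw [mem_ball_zero_iff]
    exact h2.trans_lt hj
  have h4 := hball h3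
  simp only [Set.mem_preimage, ofAdd_toAdd] at h4
  rw [hz]
  exact h4

end Pool.Agent.TH54
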