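import Pool.Agent.TH54.HM

/-!
# Torsion-free groups with open centre `ℤ_p` and central quotient of finite exponent are
hereditarily minimal

Proof in outline. Let `H` be a subgroup and `σ` a Hausdorff group topology on `H`, coarser than the
subspace topology. First, `σ` induces the `p`-adic topology on the part of `H` which lies in
`Z = Z(M) = ℤ_p`: the closures in the compact group `ℤ_p` of the traces of the `σ`-neighbourhoods of
the identity intersect in a closed subgroup, which is an ideal `p ^ m ℤ_p` or trivial; in the first
case it contains a nontrivial element of `H`, and this contradicts that `σ` is Hausdorff. Secondly,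
let `n` be the exponent of `M / Z`, and `p ^ k` a multiple of `n` in `ℤ_p`. If `x ^ n` is in
`p ^ k ℤ_p`, then `x ^ n = y ^ n` for a `y` in `Z`, hence `x = y` is in `Z`, because `M` is
torsion-free. So the continuity of `x ↦ x ^ n` shows that `H ∩ Z` is a `σ`-neighbourhood of the
identity.
-/

set_option autoImplicit false

namespace Pool.Agent.TH54

theorem instances_of_center {p : ℕ} [Fact p.Prime] {M : Type*} [Group M] [TopologicalSpace M]
    [IsTopologicalGroup M] [T2Space M]
    (hopen : IsOpen (Subgroup.center M : Set M))
    (e : Multiplicative ℤ_[p] ≃ₜ* Subgroup.center M) :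
    ∃ ι : Multiplicative ℤ_[p] →* M, Topology.IsOpenEmbedding ι ∧
      (∀ z x, ι z * x = x * ι z) ∧ (∀ x ∈ Subgroup.center M, x ∈ ι.range) := by
  refine ⟨(Subgroup.center M).subtype.comp e.toMulEquiv.toMonoidHom, ?_, ?_, ?_⟩
  · exact hopen.isOpenEmbedding_subtypeVal.comp e.toHomeomorph.isOpenEmbedding
  · intro z x
    have := Subgroup.mem_center_iff.1 (e z).2 x
    exact this.symm
  · intro x hx
    refine ⟨e.symm ⟨x, hx⟩, ?_⟩
    show ((e (e.symm ⟨x, hx⟩) : Subgroup.center M) : M) = x
    rw [e.apply_symm_apply]

end Pool.Agent.TH54

namespace Pool.Agent.TH54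

/-- Let `p` be a prime and `M` a torsion-free Hausdorff topological group whose centre is open in
`M` and topologically isomorphic to the group `ℤ_p` of `p`-adic integers, and such that
`M / Z(M)` is infinite and has finite exponent. Then `M` is hereditarily minimal, locally compact,
neither discrete nor compact, and its centre is neither trivial nor all of `M`. -/
theorem bounded_exponent_extensions (p : ℕ) [Fact p.Prime] (M : Type*) [Group M] [TopologicalSpace M]
    [IsTopologicalGroup M] [T2Space M]
    (htf : ∀ x : M, IsOfFinOrder x → x = 1)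
    (hopen : IsOpen (Subgroup.center M : Set M))
    (hZ : Nonempty (Multiplicative ℤ_[p] ≃ₜ* Subgroup.center M))
    (hexp : ∃ n : ℕ, 0 < n ∧ ∀ x : M ⧸ Subgroup.center M, x ^ n = 1)
    (hinf : Infinite (M ⧸ Subgroup.center M)) :
    (∀ (H : Subgroup M) (σ : TopologicalSpace H), @IsTopologicalGroup H σ _ → @T2Space H σ →
        (instTopologicalSpaceSubtype : TopologicalSpace H) ≤ σ →
        σ = instTopologicalSpaceSubtype) ∧
      LocallyCompactSpace M ∧ ¬ DiscreteTopology M ∧ ¬ CompactSpace M ∧
      Subgroup.center M ≠ ⊥ ∧ Subgroup.center M ≠ ⊤ := by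
  obtain ⟨e⟩ := hZ
  obtain ⟨ι, hι, hc, hr⟩ := instances_of_center hopen e
  obtain ⟨n, hn, hx⟩ := hexp
  have hHM : HereditarilyMinimal M := by
    refine hereditarilyMinimal_of ι hι hc htf hn ?_
    intro x
    apply hr
    have := hx (x : M ⧸ Subgroup.center M)
    rw [← QuotientGroup.mk_pow, QuotientGroup.eq_one_iff] at this
    exact this
  have hcomp : CompactSpace (Subgroup.center M) := by
    have : CompactSpace (Multiplicative ℤ_[p]) := inferInstanceAs (CompactSpace ℤ_[p])
    exact e.toHomeomorph.compactSpace
  have hlc : LocallyCompactSpace M := by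
    have hK : IsCompact (Subgroup.center M : Set M) := isCompact_iff_compactSpace.2 hcomp
    exact hK.locallyCompactSpace_of_mem_nhds_of_group
      (hopen.mem_nhds (Subgroup.center M).one_mem)
  have hnd : ¬ DiscreteTopology M := by
    intro hd
    have h1 : DiscreteTopology (Subgroup.center M) := inferInstance
    have h2 : DiscreteTopology (Multiplicative ℤ_[p]) :=
      e.toHomeomorph.isEmbedding.discreteTopology
    have h3 : Finite (Multiplicative ℤ_[p]) := by
      have : CompactSpace (Multiplicative ℤ_[p]) := inferInstanceAs (CompactSpace ℤ_[p])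
      exact finite_of_compact_of_discrete
    have h4 : Infinite (Multiplicative ℤ_[p]) := inferInstanceAs (Infinite ℤ_[p])
    exact h4.false
  refine ⟨fun H σ h1 h2 h3 => hHM H σ h3 h1 h2, hlc, hnd, ?_, ?_, ?_⟩
  · intro hM
    have h1 : DiscreteTopology (M ⧸ Subgroup.center M) :=
      QuotientGroup.discreteTopology hopen
    have h2 : Finite (M ⧸ Subgroup.center M) := finite_of_compact_of_discrete
    exact hinf.false
  · intro h
    apply hnd
    rw [h, Subgroup.coe_bot] at hopen
    exact discreteTopology_of_isOpen_singleton_one hopen
  · intro h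
    have h1 : Subsingleton (M ⧸ Subgroup.center M) := by
      rw [h]
      exact QuotientGroup.subsingleton_quotient_top
    exact not_finite (M ⧸ Subgroup.center M)

end Pool.Agent.TH54
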